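import Pool.Agent.H388.GM174.DG0

/-!
# DG: change one sign in the Gog integrand, assembly
-/

set_option autoImplicit false

namespace Pool.Agent.H388.GM174

open Finset Pool.Agent.H174.GM

section EE
variable {k : ℕ}

/-- the subfield of the elements free of `x_j` -/
def FL (h9 : S_XF) (j : Fin k) : Subfield (E k) where
  carrier := {f | Free j f}
  mul_mem' := fun {a b} ha hb => ((h9 k j).2.2.2.2.2.2.1 a b ha hb).2
  one_mem' := by
    have := (h9 k j).2.2.2.2.2.1 1
    rwa [map_one] at this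
  add_mem' := fun {a b} ha hb => ((h9 k j).2.2.2.2.2.2.1 a b ha hb).1
  zero_mem' := by
    have := (h9 k j).2.2.2.2.2.1 0
    rwa [map_zero] at this
  neg_mem' := fun {a} ha => ((h9 k j).2.2.2.2.2.2.2 a ha).1
  inv_mem' := fun a ha => ((h9 k j).2.2.2.2.2.2.2 a ha).2

/-- the subring of the elements with non negative exponents of `x_j` -/
def GR (h6 : S_EH1) (h9 : S_XF) (j : Fin k) : Subring (E k) where
  carrier := {f | Ge j 0 f}
  mul_mem' := fun {a b} ha hb => by
    have := (h6 k j 0 0 a b).1 ha hb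
    rwa [add_zero] at this
  one_mem' := by
    have := (h9 k j).2.2.2.2.2.1 1
    rw [map_one] at this
    exact this.1
  add_mem' := fun {a b} ha hb => (h6 k j 0 0 a b).2.2.1 ha hb
  zero_mem' := by
    have := (h9 k j).2.2.2.2.2.1 0
    rw [map_zero] at this
    exact this.1
  neg_mem' := fun {a} ha => (h6 k j 0 0 a a).2.2.2.2.1 ha

theorem FL_le_GR (h6 : S_EH1) (h9 : S_XF) (j : Fin k) {f : E k} (hf : f ∈ FL h9 j) :
    f ∈ GR h6 h9 j := And.left hf

theorem xx_FL (h9 : S_XF) (j i : Fin k) (h : i ≠ j) : xx i ∈ FL h9 j := (h9 k j).2.2.2.1 i h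

theorem Le_mul (h6 : S_EH1) (j : Fin k) {a b : ℤ} {f g : E k} (hf : Le j a f) (hg : Le j b g) :
    Le j (a + b) (f * g) := (h6 k j a b f g).2.1 hf hg

theorem Le_mono (h6 : S_EH1) (j : Fin k) {a b : ℤ} {f : E k} (hf : Le j a f) (h : a ≤ b) :
    Le j b f := (h6 k j a b f f).2.2.2.2.2.2.2.1 hf h

theorem Le_add (h6 : S_EH1) (j : Fin k) {a : ℤ} {f g : E k} (hf : Le j a f) (hg : Le j a g) :
    Le j a (f + g) := (h6 k j a a f g).2.2.2.1 hf hg

theorem Le_neg (h6 : S_EH1) (j : Fin k) {a : ℤ} {f : E k} (hf : Le j a f) :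
    Le j a (-f) := (h6 k j a a f f).2.2.2.2.2.1 hf

theorem Le_FL (h9 : S_XF) (j : Fin k) {f : E k} (hf : f ∈ FL h9 j) : Le j 0 f := And.right hf

theorem Le_pow (h6 : S_EH1) (h9 : S_XF) (j : Fin k) {a : ℤ} {f : E k} (hf : Le j a f) (m : ℕ) :
    Le j (m * a) (f ^ m) := by
  induction m with
  | zero =>
    rw [pow_zero]
    have := Le_FL h9 j (one_mem (FL h9 j))
    simpa using this
  | succ m ih =>
    rw [pow_succ]
    have := Le_mul h6 j ih hf
    have e : ((m + 1 : ℕ) : ℤ) * a = (m : ℤ) * a + a := by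
      push_cast
      ring
    rw [e]
    exact this

theorem Le_sum (h6 : S_EH1) (h9 : S_XF) (j : Fin k) {a : ℤ} {ι : Type*} (s : Finset ι)
    (f : ι → E k) (ha : 0 ≤ a) (hf : ∀ i ∈ s, Le j a (f i)) : Le j a (∑ i ∈ s, f i) := by
  classical
  induction s using Finset.induction_on with
  | empty =>
    rw [Finset.sum_empty]
    exact Le_mono h6 j (Le_FL h9 j (zero_mem (FL h9 j))) ha
  | insert b s hb ih =>
    rw [Finset.sum_insert hb]
    exact Le_add h6 j (hf b (Finset.mem_insert_self _ _))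
      (ih fun i hi => hf i (Finset.mem_insert_of_mem hi))

theorem Form_Ge (h6 : S_EH1) (h9 : S_XF) (q : Fin k) (n : ℕ) {t : E k}
    (ht : Form (FL h9 q) n k (xx q) t) : t ∈ GR h6 h9 q := by
  obtain ⟨c, hc, Q, -, hQ, rfl⟩ := ht
  have hx : xx q ∈ GR h6 h9 q := (h6 k q 1 0 (xx q) (xx q)).2.2.2.2.2.2.1 (h9 k q).2.1 (by norm_num)
  have h1x : (1 - xx q : E k) ∈ GR h6 h9 q := sub_mem (one_mem _) hx
  have h1xi : (1 - xx q : E k)⁻¹ ∈ GR h6 h9 q := ((h9 k q).2.2.2.2.1 q).2.2
  rw [div_eq_mul_inv, ← inv_pow]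
  refine mul_mem (mul_mem (mul_mem (mul_mem (mul_mem (FL_le_GR h6 h9 q hc)
    (add_mem (one_mem _) hx)) (pow_mem hx _)) ?_) h1x) (pow_mem h1xi _)
  rw [Polynomial.eval_eq_sum_range]
  exact sum_mem fun i _ => mul_mem (FL_le_GR h6 h9 q (hQ i)) (pow_mem hx _)

theorem Form_Le (h6 : S_EH1) (h7 : S_EH2) (h9 : S_XF) (q : Fin k) (n : ℕ) (hkn : k ≤ n) {t : E k}
    (ht : Form (FL h9 q) n k (1 - xx q) t) : Le q (-2) t := by
  obtain ⟨c, hc, Q, hQd, hQ, rfl⟩ := ht
  have hx : Le q 1 (xx q) := (h9 k q).2.2.1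
  have hone : Le q 1 (1 : E k) := Le_mono h6 q (Le_FL h9 q (one_mem (FL h9 q))) (by norm_num)
  have hv : Le q 1 (1 - xx q : E k) := by
    rw [sub_eq_add_neg]
    exact Le_add h6 q hone (Le_neg h6 q hx)
  have hv2 : Le q 1 (1 + (1 - xx q) : E k) := Le_add h6 q hone hv
  have hinv : Le q (-1) ((xx q : E k)⁻¹) := by
    have := (h7 k (xx q) (toLex (Pi.single q 1)) (h9 k q).1).2.2 q
    simp only [ofLex_toLex, Pi.single_eq_same] at this
    exact this hx
  have e1 : (1 - (1 - xx q) : E k) = xx q := by ring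
  rw [e1, div_eq_mul_inv, ← inv_pow]
  have hQe : Le q ((4 * k - 2 : ℕ) : ℤ) (Q.eval (1 - xx q)) := by
    rw [Polynomial.eval_eq_sum_range]
    refine Le_sum h6 h9 q _ _ (by positivity) fun i hi => ?_
    have hi' : i ≤ 4 * k - 2 := by
      have := Finset.mem_range.1 hi
      omega
    have h1 := Le_mul h6 q (Le_FL h9 q (hQ i)) (Le_pow h6 h9 q hv i)
    refine Le_mono h6 q h1 ?_
    rw [zero_add, mul_one]
    exact_mod_cast hi'
  have h1 := Le_mul h6 q (Le_mul h6 q (Le_mul h6 q (Le_mul h6 q (Le_mul h6 q (Le_FL h9 q hc) hv2)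
    (Le_pow h6 h9 q hv (n - k))) hQe) hx) (Le_pow h6 h9 q hinv (2 * (n + k + 1)))
  refine Le_mono h6 q h1 ?_
  have hk := Fin.pos q
  push_cast [Nat.cast_sub hkn, Nat.cast_sub (show 2 ≤ 4 * k by omega)]
  have : (k : ℤ) ≤ n := by exact_mod_cast hkn
  linarith

theorem res_zero_Ge (h6 : S_EH1) (h8 : S_EH3) (h9 : S_XF) (j q : Fin k) (hqj : q ≠ j) {t : E k}
    (ht : t ∈ GR h6 h9 q) : res ((xx j)⁻¹ * t) = 0 := by
  refine (h8 k).2.2.1 q _ ?_
  have h1 : (xx j : E k)⁻¹ ∈ GR h6 h9 q := FL_le_GR h6 h9 q (inv_mem (xx_FL h9 q j hqj.symm))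
  exact mul_mem h1 ht

theorem res_zero_Le (h6 : S_EH1) (h8 : S_EH3) (h9 : S_XF) (j q : Fin k) (hqj : q ≠ j) {t : E k}
    (ht : Le q (-2) t) : res ((xx j)⁻¹ * t) = 0 := by
  refine (h8 k).2.2.2 q _ ?_
  have h1 : (xx j : E k)⁻¹ ∈ FL h9 q := inv_mem (xx_FL h9 q j hqj.symm)
  have := Le_mul h6 q (Le_FL h9 q h1) ht
  rwa [zero_add] at this

theorem xx_ne_zero (h9 : S_XF) (q : Fin k) : (xx q : E k) ≠ 0 := by
  intro h
  have := (h9 k q).1.1
  rw [h] at this
  simp at this

theorem one_sub_xx_ne_zero (h9 : S_XF) (q : Fin k) : (1 - xx q : E k) ≠ 0 := by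
  intro h
  have := ((h9 k q).2.2.2.2.1 q).1.1
  rw [h] at this
  simp at this

end EE

theorem psi_dl (h5 : S_FLIP) {R : Type} [CommRing R] {k : ℕ} (X : Fin k → R) (j : Fin k) :
    psi (flp (dl j) X) = -psi X := by
  have := (h5 R k X (dl j)).1 (st k)
  rw [sg_dl] at this
  unfold psi
  rw [this]
  simp

theorem dg (h1 : S_BAR) (h2 : S_LOC) (h3 : S_TF) (h4 : S_PERM) (h5 : S_FLIP) (h6 : S_EH1)
    (h7 : S_EH2) (h8 : S_EH3) (h9 : S_XF) : Pool.Agent.H174.GM.S_DG := by
  intro k n hkn σ ε j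
  have hk : 1 ≤ k := Fin.pos j
  set ε' : Fin k → Bool := Function.update ε j (!ε j) with hε'
  have hε'' : Function.update ε' j (!ε' j) = ε := by
    rw [hε']
    funext i
    by_cases hi : i = j
    · subst hi
      simp
    · simp [hi]
  set κ : E k := ((∏ i ∈ S1 j, uu (xx i : E k) ^ (n + k + 1)) *
    PS (S1 j) (fun p q => d2 (uu (xx p : E k)) (uu (xx q))))⁻¹ with hκ
  set Y : Fin k → Polynomial (E k) := Xp (xx (k := k)) j with hY
  set P : Polynomial (E k) := Polynomial.C κ * (psi Y *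
    (ff (st k) (flp ε Y ∘ σ) + ff (st k) (flp ε' Y ∘ σ))) with hP
  -- evaluation
  have heval : ∀ a : E k, P.eval a = κ * (psi (Function.update (xx (k := k)) j a) *
      (ff (st k) (flp ε (Function.update (xx (k := k)) j a) ∘ σ) +
        ff (st k) (flp ε' (Function.update (xx (k := k)) j a) ∘ σ))) := by
    intro a
    have e0 : P.eval a = (Polynomial.evalRingHom a) P := rfl
    rw [e0, hP, map_mul, map_mul, map_add, psi_map, ff_map, ff_map, ← eval_Xp (xx (k := k)) j a,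
      ← Function.comp_assoc, ← Function.comp_assoc, flp_map, flp_map, ← hY]
    have e1 : (Polynomial.evalRingHom a) (Polynomial.C κ) = κ := by simp
    rw [e1]
  -- the conditions
  have hfree : ∀ i, Free j (P.coeff i) := by
    have hκm : κ ∈ FL h9 j := by
      have hx : ∀ i ∈ S1 j, xx i ∈ FL h9 j := fun i hi => xx_FL h9 j i ((mem_S1 j i).1 hi)
      refine inv_mem (mul_mem (prod_mem fun i hi => pow_mem (uu_mem _ (hx i hi)) _)
        (PS_mem _ _ _ fun a ha b hb => d2_mem _ (uu_mem _ (hx a ha)) (uu_mem _ (hx b hb))))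
    have hYm : ∀ i, Y i ∈ PL (FL h9 j).toSubring :=
      Xp_mem _ _ _ fun i hi => xx_FL h9 j i hi
    have hPm : P ∈ PL (FL h9 j).toSubring := by
      refine mul_mem ?_ (mul_mem (psi_mem _ hYm) (add_mem (ff_mem _ (fun i => flp_mem _ hYm _ _) _)
        (ff_mem _ (fun i => flp_mem _ hYm _ _) _)))
      intro i
      rw [Polynomial.coeff_C]
      split_ifs
      · exact hκm
      · exact zero_mem (FL h9 j)
    exact hPm
  have hodd : P.comp (1 - Polynomial.X) = -P := by
    have e0 : P.comp (1 - Polynomial.X) = (Polynomial.compRingHom (1 - Polynomial.X)) P := rfl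
    rw [e0, hP, map_mul, map_mul, map_add, psi_map, ff_map, ff_map, ← Function.comp_assoc,
      ← Function.comp_assoc, flp_map, flp_map, comp_Xp, flp_dl, flp_dl, psi_dl h5, ← hε', hε'']
    have e1 : (Polynomial.compRingHom (1 - Polynomial.X)) (Polynomial.C κ) = Polynomial.C κ := by
      simp
    rw [e1]
    ring
  have hdeg : P.natDegree + 2 ≤ 2 * (n + k + 1) + 4 * (k - 1) := by
    have d1 := natDegree_psi_le (xx (k := k)) j
    have d2' := natDegree_ffXp_le (xx (k := k)) j ε σ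
    have d3 := natDegree_ffXp_le (xx (k := k)) j ε' σ
    have d4 : (ff (st k) (flp ε Y ∘ σ) + ff (st k) (flp ε' Y ∘ σ)).natDegree ≤ 3 * k - 2 :=
      (Polynomial.natDegree_add_le _ _).trans (max_le d2' d3)
    have d5 := Polynomial.natDegree_mul_le_of_le d1 d4
    have d6 : P.natDegree ≤ (3 * k - 2) + (3 * k - 2) :=
      (Polynomial.natDegree_C_mul_le _ _).trans d5
    omega
  -- the roots
  have hroot : ∀ q, q ≠ j → res ((xx j)⁻¹ * Cof j q (n + k + 1) P (xx q)⁻¹) = 0 ∧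
      res ((xx j)⁻¹ * Cof j q (n + k + 1) P (1 - xx q)⁻¹) = 0 := by
    intro q hqj
    have hx0 := xx_ne_zero h9 q
    have hx1 := one_sub_xx_ne_zero h9 q
    constructor
    · -- the root 1 / y
      set X : Fin k → E k := Function.update (xx (k := k)) j (xx q)⁻¹ with hXdef
      have hXj : X j = (xx q)⁻¹ := by simp [hXdef]
      have hXr : ∀ r, r ≠ j → X r = xx r := fun r hr => by simp [hXdef, hr]
      have hκX : κ = ((∏ i ∈ S1 j, uu (X i) ^ (n + k + 1)) *
          PS (S1 j) (fun p q => d2 (uu (X p)) (uu (X q))))⁻¹ := by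
        rw [hκ]
        congr 2
        · refine Finset.prod_congr rfl fun i hi => ?_
          rw [hXr i ((mem_S1 j i).1 hi)]
        · unfold PS
          refine Finset.prod_congr rfl fun a ha => Finset.prod_congr rfl fun b hb => ?_
          simp only [hXr a ((mem_S1 j a).1 ha), hXr b ((mem_S1 j b).1 hb)]
      have hform : ∀ ε₁ : Fin k → Bool, κ * (psi X * ff (st k) (flp ε₁ X ∘ σ)) /
          ((1 - 2 * (xx q)⁻¹) * (1 - 3 * uu (xx q) + 2 * uu (xx q)⁻¹ * uu (xx q) ^ 2) *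
            uu (xx q)⁻¹ ^ (n + k + 1) * ∏ r ∈ S2 j q, d2 (uu (xx q)⁻¹) (uu (xx r))) ∈
          GR h6 h9 q := by
        intro ε₁
        have key := term_form h2 h3 hkn σ ε₁ j q hqj (FL h9 q) X (fun r h1 h2 => by
          rw [hXr r h1]
          exact xx_FL h9 q r h2) (xx q) hx0 hx1 hXj (hXr q hqj)
        have hprod : ∏ r ∈ S2 j q, d2 (uu (xx q)⁻¹) (uu (X r)) =
            ∏ r ∈ S2 j q, d2 (uu (xx q)⁻¹) (uu (xx r)) :=
          Finset.prod_congr rfl fun r hr => by rw [hXr r ((mem_S2 j q r).1 hr).1]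
        rw [← hκX, hXr q hqj, hprod] at key
        exact Form_Ge h6 h9 q n key
      refine res_zero_Ge h6 h8 h9 j q hqj ?_
      have e : Cof j q (n + k + 1) P (xx q)⁻¹ =
          κ * (psi X * ff (st k) (flp ε X ∘ σ)) /
          ((1 - 2 * (xx q)⁻¹) * (1 - 3 * uu (xx q) + 2 * uu (xx q)⁻¹ * uu (xx q) ^ 2) *
            uu (xx q)⁻¹ ^ (n + k + 1) * ∏ r ∈ S2 j q, d2 (uu (xx q)⁻¹) (uu (xx r))) +
          κ * (psi X * ff (st k) (flp ε' X ∘ σ)) /
          ((1 - 2 * (xx q)⁻¹) * (1 - 3 * uu (xx q) + 2 * uu (xx q)⁻¹ * uu (xx q) ^ 2) *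
            uu (xx q)⁻¹ ^ (n + k + 1) * ∏ r ∈ S2 j q, d2 (uu (xx q)⁻¹) (uu (xx r))) := by
        unfold Cof
        rw [heval, ← add_div]
        unfold S2
        congr 1
        ring
      rw [e]
      exact add_mem (hform ε) (hform ε')
    · -- the root 1 / (1 - y)
      set X : Fin k → E k := Function.update (Function.update (xx (k := k)) j (1 - xx q)⁻¹) q
        (1 - xx q) with hXdef
      have hXj : X j = (1 - xx q)⁻¹ := by simp [hXdef, hqj.symm]
      have hXq : X q = 1 - xx q := by simp [hXdef]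
      have hXr : ∀ r, r ≠ j → r ≠ q → X r = xx r := fun r hr hr' => by simp [hXdef, hr, hr']
      have huu : ∀ r, r ≠ j → uu (X r) = uu (xx r) := by
        intro r hr
        by_cases hrq : r = q
        · subst hrq
          rw [hXq]
          unfold uu
          ring
        · rw [hXr r hr hrq]
      have hflip : Function.update (xx (k := k)) j (1 - xx q)⁻¹ = flp (dl q) X := by
        funext i
        by_cases hi : i = q
        · subst hi
          have : flp (dl i) X i = 1 - X i := by simp [flp, dl]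
          rw [this, hXq]
          simp [hqj]
        · have : flp (dl q) X i = X i := by simp [flp, dl, hi]
          rw [this]
          simp [hXdef, hi]
      have hκX : κ = ((∏ i ∈ S1 j, uu (X i) ^ (n + k + 1)) *
          PS (S1 j) (fun p q => d2 (uu (X p)) (uu (X q))))⁻¹ := by
        rw [hκ]
        congr 2
        · refine Finset.prod_congr rfl fun i hi => ?_
          rw [huu i ((mem_S1 j i).1 hi)]
        · unfold PS
          refine Finset.prod_congr rfl fun a ha => Finset.prod_congr rfl fun b hb => ?_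
          simp only [huu a ((mem_S1 j a).1 ha), huu b ((mem_S1 j b).1 hb)]
      have hform : ∀ ε₁ : Fin k → Bool, Le q (-2) (κ * (psi X * ff (st k) (flp ε₁ X ∘ σ)) /
          ((1 - 2 * (1 - xx q)⁻¹) * (1 - 3 * uu (xx q) + 2 * uu (1 - xx q)⁻¹ * uu (xx q) ^ 2) *
            uu (1 - xx q)⁻¹ ^ (n + k + 1) * ∏ r ∈ S2 j q, d2 (uu (1 - xx q)⁻¹) (uu (xx r)))) := by
        intro ε₁
        have key := term_form h2 h3 hkn σ ε₁ j q hqj (FL h9 q) X (fun r h1 h2 => by
          rw [hXr r h1 h2]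
          exact xx_FL h9 q r h2) (1 - xx q) hx1 (by
            have : (1 - (1 - xx q) : E k) = xx q := by ring
            rw [this]
            exact hx0) hXj hXq
        have hprod : ∏ r ∈ S2 j q, d2 (uu (1 - xx q)⁻¹) (uu (X r)) =
            ∏ r ∈ S2 j q, d2 (uu (1 - xx q)⁻¹) (uu (xx r)) :=
          Finset.prod_congr rfl fun r hr => by rw [huu r ((mem_S2 j q r).1 hr).1]
        rw [← hκX, huu q hqj, hprod] at key
        exact Form_Le h6 h7 h9 q n hkn key
      refine res_zero_Le h6 h8 h9 j q hqj ?_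
      have e : Cof j q (n + k + 1) P (1 - xx q)⁻¹ =
          -(κ * (psi X * ff (st k) (flp (Function.update ε q (!ε q)) X ∘ σ)) /
          ((1 - 2 * (1 - xx q)⁻¹) * (1 - 3 * uu (xx q) + 2 * uu (1 - xx q)⁻¹ * uu (xx q) ^ 2) *
            uu (1 - xx q)⁻¹ ^ (n + k + 1) * ∏ r ∈ S2 j q, d2 (uu (1 - xx q)⁻¹) (uu (xx r))) +
          κ * (psi X * ff (st k) (flp (Function.update ε' q (!ε' q)) X ∘ σ)) /
          ((1 - 2 * (1 - xx q)⁻¹) * (1 - 3 * uu (xx q) + 2 * uu (1 - xx q)⁻¹ * uu (xx q) ^ 2) *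
            uu (1 - xx q)⁻¹ ^ (n + k + 1) *
              ∏ r ∈ S2 j q, d2 (uu (1 - xx q)⁻¹) (uu (xx r)))) := by
        unfold Cof
        rw [heval, hflip, psi_dl h5, flp_dl, flp_dl, ← add_div, ← neg_div]
        unfold S2
        congr 1
        ring
      rw [e]
      exact Le_neg h6 q (Le_add h6 q (hform _) (hform _))
  -- conclusion
  have hbar := h1 k j (n + k + 1) P (by omega) hfree hodd hdeg hroot
  rw [heval, Function.update_eq_self] at hbar
  have hden : dd (xx (k := k)) * (∏ i, uu (xx (k := k) i)) ^ (n + k + 1) =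
      (uu (xx j) ^ (n + k + 1) * ∏ q ∈ S1 j, d2 (uu (xx j)) (uu (xx q))) *
      ((∏ i ∈ S1 j, uu (xx i : E k) ^ (n + k + 1)) *
        PS (S1 j) (fun p q => d2 (uu (xx p : E k)) (uu (xx q)))) := by
    have hs : ∀ p q, (fun p q => d2 (uu (xx p : E k)) (uu (xx q))) p q =
        1 * (fun p q => d2 (uu (xx p : E k)) (uu (xx q))) q p := by
      intro p q
      simp only [one_mul]
      exact d2_comm _ _
    unfold dd
    rw [PS_univ (fun p q => d2 (uu (xx p : E k)) (uu (xx q))), ← ins_S1 j,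
      PS_insert _ _ (j_S1 j) _ 1 hs, Finset.prod_insert (j_S1 j), mul_pow, ← Finset.prod_pow]
    simp only [ite_self, Finset.prod_const_one, one_mul]
    ring
  have hsum : psi (xx (k := k)) * ff (st k) (flp ε xx ∘ σ) /
        (dd (xx (k := k)) * (∏ i, uu (xx i)) ^ (n + k + 1)) +
      psi (xx (k := k)) * ff (st k) (flp ε' xx ∘ σ) /
        (dd (xx (k := k)) * (∏ i, uu (xx i)) ^ (n + k + 1)) =
      κ * (psi xx * (ff (st k) (flp ε xx ∘ σ) + ff (st k) (flp ε' xx ∘ σ))) /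
        (uu (xx j) ^ (n + k + 1) * ∏ q ∈ univ.filter (fun q => q ≠ j),
          d2 (uu (xx j)) (uu (xx q))) := by
    rw [hden, ← add_div, hκ]
    have : univ.filter (fun q => q ≠ j) = S1 j := rfl
    rw [this, div_eq_mul_inv, div_eq_mul_inv, mul_inv (uu (xx j) ^ (n + k + 1) * _)]
    ring
  have h0 := (h8 k).1 (psi (xx (k := k)) * ff (st k) (flp ε xx ∘ σ) /
        (dd (xx (k := k)) * (∏ i, uu (xx i)) ^ (n + k + 1)))
      (psi (xx (k := k)) * ff (st k) (flp ε' xx ∘ σ) /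
        (dd (xx (k := k)) * (∏ i, uu (xx i)) ^ (n + k + 1)))
  rw [hsum, hbar] at h0
  linarith

end Pool.Agent.H388.GM174
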