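import Pool.Agent.H174.GM.Stmts

/-!
# FAC: factorisation of the class `IsC` on the locus `x_0 x_1 = 1`

The factor `f'` is `f(0,0,t)`.  For rational `t_r = u(Y_r/(Y_r-1))` with distinct integers
`Y_r ≥ 2` both sides, multiplied by `y^k`, are polynomials in `y` of degree `≤ 2k` which agree at
the `2k+1` nodes `1, Y_r, 1/Y_r`.
-/

set_option autoImplicit false

namespace Pool.Agent.H388.GM174

open Finset Pool.Agent.H174.GM

variable {k : ℕ}

theorem exp_le {f : MvPolynomial (Fin (k + 2)) ℚ} (hf : IsC (k + 2) f) {m : Fin (k + 2) →₀ ℕ}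
    (hm : m ∈ f.support) (i i' : Fin (k + 2)) (hii' : i ≠ i') : 2 * m i ≤ k + m i' := by
  have h1 := hf.deg i
  have h2 := MvPolynomial.monomial_le_degreeOf i hm
  have h3 := hf.top m hm i i' hii'
  by_cases h : 2 * m i + 1 = k + 2
  · have := h3 h
    omega
  · omega

/-- the polynomial `y^k f(u(1/y), u(y), t)` -/
noncomputable def GG (f : MvPolynomial (Fin (k + 2)) ℚ) : MvPolynomial (Option (Fin k)) ℚ :=
  ∑ m ∈ f.support, MvPolynomial.C (MvPolynomial.coeff m f) *
    ((-1) ^ (m 0) * (1 - MvPolynomial.X none) ^ (m 0 + m 1) *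
      MvPolynomial.X none ^ (k + m 1 - 2 * m 0) *
        ∏ r : Fin k, MvPolynomial.X (some r) ^ (m r.succ.succ))

/-- the same in one variable, for fixed `t` -/
noncomputable def g1 (f : MvPolynomial (Fin (k + 2)) ℚ) (t : Fin k → ℚ) : Polynomial ℚ :=
  ∑ m ∈ f.support, Polynomial.C (MvPolynomial.coeff m f * ∏ r : Fin k, t r ^ (m r.succ.succ)) *
    ((-1) ^ (m 0) * (1 - Polynomial.X) ^ (m 0 + m 1) *
      Polynomial.X ^ (k + m 1 - 2 * m 0))

/-- `y^k ∏ (1 - w t_r)` -/
noncomputable def PP (k : ℕ) : MvPolynomial (Option (Fin k)) ℚ :=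
  ∏ r : Fin k, (MvPolynomial.X none + (1 - MvPolynomial.X none) ^ 2 * MvPolynomial.X (some r))

/-- the same in one variable, for fixed `t` -/
noncomputable def p1 (t : Fin k → ℚ) : Polynomial ℚ :=
  ∏ r : Fin k, (Polynomial.X + (1 - Polynomial.X) ^ 2 * Polynomial.C (t r))

/-- `f(0,0,t)` -/
noncomputable def fz (f : MvPolynomial (Fin (k + 2)) ℚ) : MvPolynomial (Fin k) ℚ :=
  MvPolynomial.aeval (Fin.cons (α := fun _ => MvPolynomial (Fin k) ℚ) 0
    (Fin.cons (α := fun _ => MvPolynomial (Fin k) ℚ) 0 MvPolynomial.X)) f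

theorem aeval_fz {K : Type} [CommRing K] [Algebra ℚ K] (f : MvPolynomial (Fin (k + 2)) ℚ)
    (t : Fin k → K) : MvPolynomial.aeval t (fz f) =
      MvPolynomial.aeval (Fin.cons (α := fun _ => K) 0 (Fin.cons (α := fun _ => K) 0 t)) f := by
  unfold fz
  rw [MvPolynomial.comp_aeval_apply]
  congr 1
  congr 1
  funext i
  refine Fin.cases ?_ (fun i => ?_) i
  · simp
  · refine Fin.cases ?_ (fun i => ?_) i
    · simp
    · simp

theorem aeval_cons {K : Type} [CommRing K] [Algebra ℚ K] (f : MvPolynomial (Fin (k + 2)) ℚ)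
    (a b : K) (t : Fin k → K) :
    MvPolynomial.aeval (Fin.cons (α := fun _ => K) a (Fin.cons (α := fun _ => K) b t)) f =
      ∑ m ∈ f.support, algebraMap ℚ K (MvPolynomial.coeff m f) *
        (a ^ (m 0) * (b ^ (m 1) * ∏ r : Fin k, t r ^ (m r.succ.succ))) := by
  rw [MvPolynomial.aeval_def, MvPolynomial.eval₂_eq']
  refine Finset.sum_congr rfl fun m _ => ?_
  rw [Fin.prod_univ_succ, Fin.prod_univ_succ]
  simp

theorem uu_inv {K : Type} [Field K] (y : K) (hy : y ≠ 0) : uu y⁻¹ = (-1) * (1 - y) * (y⁻¹) ^ 2 := by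
  unfold uu
  field_simp
  ring

theorem aeval_GG {K : Type} [Field K] [Algebra ℚ K] {f : MvPolynomial (Fin (k + 2)) ℚ}
    (hf : IsC (k + 2) f) (t : Fin k → K) (y : K) (hy : y ≠ 0) :
    MvPolynomial.aeval (fun o : Option (Fin k) => o.elim y t) (GG f) =
      y ^ k * MvPolynomial.aeval (Fin.cons (α := fun _ => K) (uu y⁻¹)
        (Fin.cons (α := fun _ => K) (uu y) t)) f := by
  rw [aeval_cons, Finset.mul_sum]
  unfold GG
  rw [map_sum]
  refine Finset.sum_congr rfl fun m hm => ?_
  simp only [map_mul, map_pow, map_neg, map_one, map_sub, map_prod, MvPolynomial.aeval_X,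
    MvPolynomial.aeval_C, Option.elim]
  have h := exp_le hf hm 0 1 (by simp)
  rw [uu_inv y hy]
  have e : y ^ (k + m 1 - 2 * m 0) = y ^ (k + m 1) * ((y⁻¹) ^ 2) ^ (m 0) := by
    rw [pow_sub₀ y hy h, ← pow_mul, inv_pow]
  rw [e]
  unfold uu
  rw [mul_pow, mul_pow, mul_pow, pow_add, pow_add]
  ring

theorem aeval_PP {K : Type} [Field K] [Algebra ℚ K] (t : Fin k → K) (y : K) (hy : y ≠ 0) :
    MvPolynomial.aeval (fun o : Option (Fin k) => o.elim y t) (PP k) =
      y ^ k * ∏ r, (1 - uu y⁻¹ * uu y * t r) := by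
  unfold PP
  rw [map_prod]
  have : y ^ k = ∏ r : Fin k, y := by simp
  rw [this, ← Finset.prod_mul_distrib]
  refine Finset.prod_congr rfl fun r _ => ?_
  simp only [map_mul, map_pow, map_one, map_sub, map_add, MvPolynomial.aeval_X, Option.elim]
  rw [uu_inv y hy]
  unfold uu
  field_simp
  ring

theorem eval_g1 (f : MvPolynomial (Fin (k + 2)) ℚ) (t : Fin k → ℚ) (y : ℚ) :
    (g1 f t).eval y = MvPolynomial.aeval (fun o : Option (Fin k) => o.elim y t) (GG f) := by
  unfold g1 GG
  rw [map_sum, Polynomial.eval_finsetSum]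
  refine Finset.sum_congr rfl fun m hm => ?_
  simp only [map_mul, map_pow, map_neg, map_one, map_sub, map_prod, MvPolynomial.aeval_X,
    MvPolynomial.aeval_C, Option.elim, Polynomial.eval_mul, Polynomial.eval_C,
    Polynomial.eval_pow, Polynomial.eval_neg, Polynomial.eval_one, Polynomial.eval_sub,
    Polynomial.eval_X, Algebra.algebraMap_self, RingHom.id_apply, Polynomial.eval_prod]
  ring

theorem eval_p1 (t : Fin k → ℚ) (y : ℚ) :
    (p1 t).eval y = MvPolynomial.aeval (fun o : Option (Fin k) => o.elim y t) (PP k) := by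
  unfold p1 PP
  rw [map_prod, Polynomial.eval_prod]
  refine Finset.prod_congr rfl fun m hm => ?_
  simp

theorem natDegree_g1 {f : MvPolynomial (Fin (k + 2)) ℚ} (hf : IsC (k + 2) f) (t : Fin k → ℚ) :
    (g1 f t).natDegree ≤ 2 * k := by
  unfold g1
  refine Polynomial.natDegree_sum_le_of_forall_le _ _ fun m hm => ?_
  have h := exp_le hf hm 0 1 (by simp)
  have h' := exp_le hf hm 1 0 (by simp)
  refine (Polynomial.natDegree_C_mul_le _ _).trans ?_
  have h1 : ((-1 : Polynomial ℚ) ^ (m 0)).natDegree ≤ 0 := by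
    refine (Polynomial.natDegree_pow_le).trans ?_
    simp
  have h2 : ((1 - Polynomial.X : Polynomial ℚ) ^ (m 0 + m 1)).natDegree ≤ m 0 + m 1 := by
    refine (Polynomial.natDegree_pow_le).trans ?_
    have : (1 - Polynomial.X : Polynomial ℚ).natDegree ≤ 1 := by
      refine (Polynomial.natDegree_sub_le _ _).trans ?_
      simp
    nlinarith
  have h3 : ((Polynomial.X : Polynomial ℚ) ^ (k + m 1 - 2 * m 0)).natDegree
      ≤ k + m 1 - 2 * m 0 := Polynomial.natDegree_X_pow_le _
  have h4 := Polynomial.natDegree_mul_le_of_le (Polynomial.natDegree_mul_le_of_le h1 h2) h3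
  omega

theorem natDegree_p1 (t : Fin k → ℚ) : (p1 t).natDegree ≤ 2 * k := by
  unfold p1
  refine (Polynomial.natDegree_prod_le _ _).trans ?_
  have : ∀ r ∈ (univ : Finset (Fin k)),
      (Polynomial.X + (1 - Polynomial.X) ^ 2 * Polynomial.C (t r) : Polynomial ℚ).natDegree
        ≤ 2 := by
    intro r _
    refine (Polynomial.natDegree_add_le _ _).trans (max_le ?_ ?_)
    · simp
    · refine (Polynomial.natDegree_mul_C_le _ _).trans ?_
      refine (Polynomial.natDegree_pow_le).trans ?_
      have : (1 - Polynomial.X : Polynomial ℚ).natDegree ≤ 1 := by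
        refine (Polynomial.natDegree_sub_le _ _).trans ?_
        simp
      omega
  refine (Finset.sum_le_sum this).trans ?_
  simp
  omega

/-- the nodes -/
def nd (Y : Fin k → ℕ) : Option (Fin k ⊕ Fin k) → ℚ
  | none => 1
  | some (Sum.inl r) => (Y r : ℚ)
  | some (Sum.inr r) => ((Y r : ℚ))⁻¹

theorem nd_inj (Y : Fin k → ℕ) (hY : ∀ r, 2 ≤ Y r) (hi : Function.Injective Y) :
    Function.Injective (nd Y) := by
  have h1 : ∀ r, (1 : ℚ) < (Y r : ℚ) := fun r => by exact_mod_cast hY r
  have h2 : ∀ r, ((Y r : ℚ))⁻¹ < 1 := fun r => inv_lt_one_of_one_lt₀ (h1 r)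
  rintro (_ | (a | a)) (_ | (b | b)) h
  · rfl
  · simp only [nd] at h
    have := h1 b
    linarith
  · simp only [nd] at h
    have := h2 b
    linarith
  · simp only [nd] at h
    have := h1 a
    linarith
  · simp only [nd] at h
    have h' : Y a = Y b := by exact_mod_cast h
    rw [hi h']
  · simp only [nd] at h
    have := h1 a
    have := h2 b
    linarith
  · simp only [nd] at h
    have := h2 a
    linarith
  · simp only [nd] at h
    have := h2 a
    have := h1 b
    linarith
  · simp only [nd] at h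
    have h' : Y a = Y b := by exact_mod_cast (inv_injective h)
    rw [hi h']

/-- the values `t_r` -/
def tv (Y : ℕ) : ℚ := uu ((Y : ℚ) / ((Y : ℚ) - 1))

theorem tv_eq (Y : ℕ) (hY : 2 ≤ Y) : tv Y = - (Y : ℚ) / (1 - (Y : ℚ)) ^ 2 := by
  have h1 : (1 : ℚ) < (Y : ℚ) := by exact_mod_cast hY
  have h2 : (Y : ℚ) - 1 ≠ 0 := by linarith
  have h3 : 1 - (Y : ℚ) ≠ 0 := by linarith
  unfold tv uu
  field_simp
  ring

theorem tv_inj {Y Z : ℕ} (hY : 2 ≤ Y) (hZ : 2 ≤ Z) (h : tv Y = tv Z) : Y = Z := by
  rw [tv_eq Y hY, tv_eq Z hZ] at h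
  have h1 : (1 : ℚ) < (Y : ℚ) := by exact_mod_cast hY
  have h1' : (1 : ℚ) < (Z : ℚ) := by exact_mod_cast hZ
  have h3 : 1 - (Y : ℚ) ≠ 0 := by linarith
  have h3' : 1 - (Z : ℚ) ≠ 0 := by linarith
  rw [div_eq_div_iff (pow_ne_zero 2 h3) (pow_ne_zero 2 h3')] at h
  have h4 : ((Y : ℚ) - Z) * (1 - Y * Z) = 0 := by nlinarith
  rcases mul_eq_zero.1 h4 with h5 | h5
  · have : (Y : ℚ) = Z := by linarith
    exact_mod_cast this
  · exfalso
    nlinarith

/-- the basic identity at special rational values -/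
theorem special {f : MvPolynomial (Fin (k + 2)) ℚ} (hf : IsC (k + 2) f) (Y : Fin k → ℕ)
    (hY : ∀ r, 2 ≤ Y r) (hi : Function.Injective Y) :
    g1 f (fun r => tv (Y r)) = p1 (fun r => tv (Y r)) *
      Polynomial.C (MvPolynomial.aeval (fun r => tv (Y r)) (fz f)) := by
  set t : Fin k → ℚ := fun r => tv (Y r) with ht
  rw [← sub_eq_zero]
  refine Polynomial.eq_zero_of_natDegree_lt_card_of_eval_eq_zero _ (nd_inj Y hY hi) ?_ ?_
  · rintro (_ | (r | r))
    · -- the node 1
      simp only [nd, Polynomial.eval_sub, Polynomial.eval_mul, Polynomial.eval_C]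
      rw [eval_g1, eval_p1, aeval_GG hf _ _ one_ne_zero, aeval_PP _ _ one_ne_zero, aeval_fz]
      have : uu (1 : ℚ) = 0 := by simp [uu]
      rw [inv_one, this]
      simp
    · -- the node Y r
      have h1 : (1 : ℚ) < (Y r : ℚ) := by exact_mod_cast hY r
      have h0 : (Y r : ℚ) ≠ 0 := by linarith
      simp only [nd, Polynomial.eval_sub, Polynomial.eval_mul, Polynomial.eval_C]
      rw [eval_g1, aeval_GG hf _ _ h0]
      have e1 : MvPolynomial.aeval (Fin.cons (α := fun _ => ℚ) (uu ((Y r : ℚ))⁻¹)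
        (Fin.cons (α := fun _ => ℚ) (uu (Y r : ℚ)) t)) f = 0 := by
        have := hf.wheel (Fin.cons (α := fun _ => ℚ) (uu ((Y r : ℚ))⁻¹)
          (Fin.cons (α := fun _ => ℚ) (uu (Y r : ℚ)) t)) (Y r : ℚ) 1 0 r.succ.succ
          (by simp) (by simp [Fin.ext_iff]) (by simp [Fin.ext_iff]) h0 (ne_of_gt h1)
          (by simp) (by simp) (by simp [ht, tv])
        rw [← MvPolynomial.aeval_eq_eval] at this
        exact this
      have e2 : Polynomial.eval (Y r : ℚ) (p1 t) = 0 := by
        unfold p1
        rw [Polynomial.eval_prod]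
        refine Finset.prod_eq_zero (Finset.mem_univ r) ?_
        have h3 : 1 - (Y r : ℚ) ≠ 0 := by linarith
        simp only [Polynomial.eval_add, Polynomial.eval_X, Polynomial.eval_mul,
          Polynomial.eval_pow, Polynomial.eval_sub, Polynomial.eval_one, Polynomial.eval_C, ht]
        rw [tv_eq _ (hY r)]
        field_simp
        ring
      rw [e1, e2]
      simp
    · -- the node 1 / Y r
      have h1 : (1 : ℚ) < (Y r : ℚ) := by exact_mod_cast hY r
      have h0 : (Y r : ℚ) ≠ 0 := by linarith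
      simp only [nd, Polynomial.eval_sub, Polynomial.eval_mul, Polynomial.eval_C]
      rw [eval_g1, aeval_GG hf _ _ (inv_ne_zero h0), inv_inv]
      have e1 : MvPolynomial.aeval (Fin.cons (α := fun _ => ℚ) (uu (Y r : ℚ))
        (Fin.cons (α := fun _ => ℚ) (uu ((Y r : ℚ))⁻¹) t)) f = 0 := by
        have := hf.wheel (Fin.cons (α := fun _ => ℚ) (uu (Y r : ℚ))
          (Fin.cons (α := fun _ => ℚ) (uu ((Y r : ℚ))⁻¹) t)) (Y r : ℚ) 0 1 r.succ.succ
          (by simp) (by simp [Fin.ext_iff]) (by simp [Fin.ext_iff]) h0 (ne_of_gt h1)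
          (by simp) (by simp) (by simp [ht, tv])
        rw [← MvPolynomial.aeval_eq_eval] at this
        exact this
      have e2 : Polynomial.eval ((Y r : ℚ))⁻¹ (p1 t) = 0 := by
        unfold p1
        rw [Polynomial.eval_prod]
        refine Finset.prod_eq_zero (Finset.mem_univ r) ?_
        have h3 : 1 - (Y r : ℚ) ≠ 0 := by linarith
        simp only [Polynomial.eval_add, Polynomial.eval_X, Polynomial.eval_mul,
          Polynomial.eval_pow, Polynomial.eval_sub, Polynomial.eval_one, Polynomial.eval_C, ht]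
        rw [tv_eq _ (hY r)]
        field_simp
        ring
      rw [e1, e2]
      simp
  · have h1 := natDegree_g1 hf t
    have h2 := natDegree_p1 t
    have h3 : (p1 t * Polynomial.C (MvPolynomial.aeval t (fz f))).natDegree ≤ 2 * k :=
      (Polynomial.natDegree_mul_C_le _ _).trans h2
    have h4 := Polynomial.natDegree_sub_le (g1 f t)
      (p1 t * Polynomial.C (MvPolynomial.aeval t (fz f)))
    have h5 : Fintype.card (Option (Fin k ⊕ Fin k)) = 2 * k + 1 := by
      simp
      omega
    rw [h5]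
    omega

theorem main_id {f : MvPolynomial (Fin (k + 2)) ℚ} (hf : IsC (k + 2) f) :
    GG f = PP k * MvPolynomial.rename some (fz f) := by
  -- disjoint infinite sets
  let Z : Fin k → ℕ → ℕ := fun r n => 2 + r.1 + k * n
  have hZ2 : ∀ r n, 2 ≤ Z r n := fun r n => by
    simp only [Z]
    omega
  have hZm : ∀ r n, (Z r n - 2) % k = r.1 := by
    intro r n
    have : Z r n - 2 = r.1 + k * n := by
      simp only [Z]
      omega
    rw [this, Nat.add_mul_mod_self_left, Nat.mod_eq_of_lt r.2]
  let s : Option (Fin k) → Set ℚ := fun o => o.elim Set.univ (fun r => Set.range fun n => tv (Z r n))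
  refine MvPolynomial.funext_set s ?_ ?_
  · rintro (_ | r)
    · exact Set.infinite_univ
    · refine Set.infinite_range_of_injective ?_
      intro a b hab
      have h1 := tv_inj (hZ2 r a) (hZ2 r b) hab
      have hk : 0 < k := Fin.pos r
      simp only [Z] at h1
      have h2 : k * a = k * b := by omega
      exact Nat.eq_of_mul_eq_mul_left hk h2
  · intro x hx
    have h1 : ∀ r : Fin k, ∃ n, tv (Z r n) = x (some r) := fun r => hx (some r) (Set.mem_univ _)
    choose n hn using h1
    have hx' : x = fun o : Option (Fin k) => o.elim (x none) (fun r => tv (Z r (n r))) := by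
      funext o
      rcases o with _ | r
      · rfl
      · exact (hn r).symm
    have hsp := special hf (fun r => Z r (n r)) (fun r => hZ2 r _) (by
      intro a b hab
      have h1 := hZm a (n a)
      have h2 := hZm b (n b)
      have h3 : Z a (n a) = Z b (n b) := hab
      rw [h3, h2] at h1
      exact Fin.ext h1.symm)
    have hev := congrArg (Polynomial.eval (x none)) hsp
    rw [Polynomial.eval_mul, Polynomial.eval_C, eval_g1, eval_p1] at hev
    rw [map_mul, MvPolynomial.eval_rename]
    rw [hx']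
    simp only [← MvPolynomial.aeval_eq_eval]
    exact hev

theorem fac_id {f : MvPolynomial (Fin (k + 2)) ℚ} (hf : IsC (k + 2) f)
    (K : Type) [Field K] [Algebra ℚ K] (t : Fin k → K) (y : K) (hy : y ≠ 0) :
    MvPolynomial.aeval (Fin.cons (α := fun _ => K) (uu y⁻¹)
        (Fin.cons (α := fun _ => K) (uu y) t)) f
      = (∏ r, (1 - uu y⁻¹ * uu y * t r)) * MvPolynomial.aeval t (fz f) := by
  have h := congrArg (MvPolynomial.aeval (fun o : Option (Fin k) => o.elim y t)) (main_id hf)
  rw [map_mul, aeval_GG hf t y hy, aeval_PP t y hy, MvPolynomial.aeval_rename, mul_assoc] at h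
  exact mul_left_cancel₀ (pow_ne_zero k hy) h

/-! ### the class `IsC` is preserved -/

theorem fz_sym {f : MvPolynomial (Fin (k + 2)) ℚ} (hf : f.IsSymmetric) : (fz f).IsSymmetric := by
  intro σ
  set σ' : Equiv.Perm (Fin (k + 2)) :=
    Equiv.Perm.decomposeFin.symm (0, Equiv.Perm.decomposeFin.symm (0, σ)) with hσ'
  set g : Fin (k + 2) → MvPolynomial (Fin k) ℚ :=
    Fin.cons (α := fun _ => MvPolynomial (Fin k) ℚ) 0
      (Fin.cons (α := fun _ => MvPolynomial (Fin k) ℚ) 0 MvPolynomial.X) with hg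
  have h0 : fz f = MvPolynomial.aeval g f := rfl
  rw [h0, MvPolynomial.comp_aeval_apply]
  have h : (fun i => MvPolynomial.rename σ (g i)) = g ∘ σ' := by
    funext i
    refine Fin.cases ?_ (fun i => ?_) i
    · simp [hg, hσ']
    · refine Fin.cases ?_ (fun i => ?_) i
      · simp [hg, hσ', Equiv.Perm.decomposeFin_symm_apply_succ]
      · simp [hg, hσ', Equiv.Perm.decomposeFin_symm_apply_succ]
  rw [h, ← MvPolynomial.aeval_rename, hf σ']

theorem degreeOf_monomial_le' (s : Fin k →₀ ℕ) (i : Fin k) (a : ℚ) :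
    (MvPolynomial.monomial s a).degreeOf i ≤ s i := by
  by_cases ha : a = 0
  · subst ha
    simp
  · rw [MvPolynomial.degreeOf_monomial_eq _ _ ha]

theorem two_eq : (2 : MvPolynomial (Fin k) ℚ) = MvPolynomial.C 2 := by
  rw [map_ofNat]

/-- setting some variables to zero -/
noncomputable def zz (z : Fin k → Bool) : Fin k → MvPolynomial (Fin k) ℚ :=
  fun r => if z r then 0 else MvPolynomial.X r

theorem prod_zz (z : Fin k → Bool) (e : Fin k → ℕ) :
    ∏ r, zz z r ^ e r = if (∀ r, z r = true → e r = 0) then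
      MvPolynomial.monomial (Finsupp.equivFunOnFinite.symm e) 1 else 0 := by
  split_ifs with h
  · rw [MvPolynomial.monomial_eq]
    simp only [map_one, one_mul]
    rw [Finsupp.prod_fintype _ _ (by simp)]
    refine Finset.prod_congr rfl fun r _ => ?_
    unfold zz
    by_cases hz : z r = true
    · simp [h r hz]
    · simp [hz]
  · push Not at h
    obtain ⟨r, hr, hr'⟩ := h
    refine Finset.prod_eq_zero (Finset.mem_univ r) ?_
    simp [zz, hr, hr']

theorem coeff_zz (z : Fin k → Bool) (g : MvPolynomial (Fin k) ℚ) (n : Fin k →₀ ℕ)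
    (hn : ∀ r, z r = true → n r = 0) :
    MvPolynomial.coeff n (MvPolynomial.aeval (zz z) g) = MvPolynomial.coeff n g := by
  rw [MvPolynomial.aeval_def, MvPolynomial.eval₂_eq', MvPolynomial.coeff_sum]
  have h1 : ∀ d ∈ g.support, MvPolynomial.coeff n
      ((algebraMap ℚ (MvPolynomial (Fin k) ℚ)) (MvPolynomial.coeff d g) *
        ∏ i, zz z i ^ d i) = if d = n then MvPolynomial.coeff n g else 0 := by
    intro d _
    rw [MvPolynomial.algebraMap_eq, MvPolynomial.coeff_C_mul, prod_zz]
    by_cases hd : d = n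
    · subst hd
      rw [if_pos hn, if_pos rfl]
      simp [MvPolynomial.coeff_monomial]
    · rw [if_neg hd]
      split_ifs
      · rw [MvPolynomial.coeff_monomial, if_neg, mul_zero]
        intro h
        apply hd
        rw [← h]
        ext i
        simp
      · simp
  rw [Finset.sum_congr rfl h1, Finset.sum_ite_eq']
  split_ifs with h
  · rfl
  · rw [MvPolynomial.notMem_support_iff] at h
    exact h.symm

theorem key_deg {f : MvPolynomial (Fin (k + 2)) ℚ} (hf : IsC (k + 2) f) (z : Fin k → Bool)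
    (i : Fin k) (hi : z i = false) (n : Fin k →₀ ℕ) (hn : n ∈ (fz f).support)
    (hnz : ∀ r, z r = true → n r = 0) :
    ∃ m ∈ f.support, n i + 1 ≤ m i.succ.succ ∧ ∀ r, z r = true → m r.succ.succ = 0 := by
  by_contra hcon
  push Not at hcon
  have h := congrArg (MvPolynomial.aeval (fun o : Option (Fin k) =>
    o.elim (2 : MvPolynomial (Fin k) ℚ) (zz z))) (main_id hf)
  rw [map_mul, MvPolynomial.aeval_rename] at h
  have hc : ((fun o : Option (Fin k) => o.elim (2 : MvPolynomial (Fin k) ℚ) (zz z)) ∘ some)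
      = zz z := rfl
  rw [hc] at h
  -- right side
  have hne : MvPolynomial.aeval (zz z) (fz f) ≠ 0 := by
    intro h0
    have := coeff_zz z (fz f) n hnz
    rw [h0, MvPolynomial.coeff_zero] at this
    exact (MvPolynomial.mem_support_iff.1 hn) this.symm
  have hdn : n i ≤ (MvPolynomial.aeval (zz z) (fz f)).degreeOf i := by
    apply MvPolynomial.monomial_le_degreeOf i
    rw [MvPolynomial.mem_support_iff, coeff_zz z _ n hnz]
    exact MvPolynomial.mem_support_iff.1 hn
  have hP : MvPolynomial.aeval (fun o : Option (Fin k) =>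
      o.elim (2 : MvPolynomial (Fin k) ℚ) (zz z)) (PP k) = ∏ r : Fin k, (2 + zz z r) := by
    unfold PP
    rw [map_prod]
    refine Finset.prod_congr rfl fun r _ => ?_
    simp only [map_mul, map_pow, map_one, map_sub, map_add, MvPolynomial.aeval_X, Option.elim]
    ring
  have hP0 : ∀ r ∈ (univ : Finset (Fin k)), (2 + zz z r : MvPolynomial (Fin k) ℚ) ≠ 0 := by
    intro r _ h0
    have := congrArg (MvPolynomial.eval (fun _ => (0 : ℚ))) h0
    unfold zz at this
    rw [two_eq] at this
    split_ifs at this <;>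
    simp only [map_add, map_zero, MvPolynomial.eval_C, MvPolynomial.eval_X] at this <;> norm_num at this
  have hPi : 1 ≤ (2 + zz z i : MvPolynomial (Fin k) ℚ).degreeOf i := by
    have h1 : Finsupp.single i 1 ∈ (2 + zz z i : MvPolynomial (Fin k) ℚ).support := by
      rw [MvPolynomial.mem_support_iff]
      unfold zz
      have h2 : (0 : Fin k →₀ ℕ) ≠ Finsupp.single i 1 := by
        intro h3
        have := DFunLike.congr_fun h3 i
        simp at this
      rw [if_neg (by simp [hi]), MvPolynomial.coeff_add, two_eq, MvPolynomial.coeff_C, if_neg h2]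
      simp
    have := MvPolynomial.monomial_le_degreeOf i h1
    simpa using this
  rw [hP] at h
  have hR : n i + 1 ≤ ((∏ r : Fin k, (2 + zz z r)) *
      MvPolynomial.aeval (zz z) (fz f)).degreeOf i := by
    rw [MvPolynomial.degreeOf_mul_eq (Finset.prod_ne_zero_iff.2 hP0) hne,
      MvPolynomial.degreeOf_prod_eq _ _ hP0]
    have := Finset.single_le_sum (f := fun r => (2 + zz z r : MvPolynomial (Fin k) ℚ).degreeOf i)
      (fun _ _ => Nat.zero_le _) (Finset.mem_univ i)
    omega
  -- left side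
  have hL : (MvPolynomial.aeval (fun o : Option (Fin k) =>
      o.elim (2 : MvPolynomial (Fin k) ℚ) (zz z)) (GG f)).degreeOf i ≤ n i := by
    unfold GG
    rw [map_sum]
    refine (MvPolynomial.degreeOf_sum_le _ _ _).trans (Finset.sup_le fun m hm => ?_)
    simp only [map_mul, map_pow, map_neg, map_one, map_sub, map_prod, MvPolynomial.aeval_X,
      MvPolynomial.aeval_C, Option.elim]
    rw [prod_zz]
    split_ifs with hz
    · have h3 : ¬ (n i + 1 ≤ m i.succ.succ) := by
        intro h4
        obtain ⟨r, hr, hr'⟩ := hcon m hm h4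
        exact hr' (hz r hr)
      have h5 : (MvPolynomial.C (MvPolynomial.coeff m f * ((-1) ^ (m 0) * (1 - 2) ^ (m 0 + m 1) *
          2 ^ (k + m 1 - 2 * m 0))) : MvPolynomial (Fin k) ℚ) =
          (algebraMap ℚ (MvPolynomial (Fin k) ℚ)) (MvPolynomial.coeff m f) *
          ((-1) ^ (m 0) * (1 - 2) ^ (m 0 + m 1) * 2 ^ (k + m 1 - 2 * m 0)) := by
        rw [MvPolynomial.algebraMap_eq]
        simp only [map_mul, map_pow, map_neg, map_one, map_sub, map_ofNat]
      rw [← mul_assoc, ← h5, MvPolynomial.C_mul_monomial]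
      refine (degreeOf_monomial_le' _ _ _).trans ?_
      simp only [Finsupp.equivFunOnFinite_symm_apply_apply]
      omega
    · simp
  rw [h] at hL
  omega


theorem fz_isC {f : MvPolynomial (Fin (k + 2)) ℚ} (hf : IsC (k + 2) f) : IsC k (fz f) where
  sym := fz_sym hf.sym
  deg := by
    intro i
    by_cases h0 : fz f = 0
    · rw [h0, MvPolynomial.degreeOf_zero]
      have := Fin.pos i
      omega
    · have h1 : (fz f).degreeOf i ≤ (k - 1) / 2 := by
        rw [MvPolynomial.degreeOf_le_iff]
        intro n hn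
        obtain ⟨m, hm, h2, -⟩ := key_deg hf (fun _ => false) i rfl n hn (by simp)
        have h3 := hf.deg i.succ.succ
        have h4 := MvPolynomial.monomial_le_degreeOf i.succ.succ hm
        omega
      have := Fin.pos i
      omega
  top := by
    intro n hn i i' hii' hni
    by_contra h0
    have h0' : n i' = 0 := by omega
    obtain ⟨m, hm, h2, h3⟩ := key_deg hf (fun r => decide (r = i')) i (by simp [hii']) n hn (by
      intro r hr
      simp only [decide_eq_true_eq] at hr
      rw [hr]
      exact h0')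
    have h4 := hf.deg i.succ.succ
    have h5 := MvPolynomial.monomial_le_degreeOf i.succ.succ hm
    have h6 := hf.top m hm i.succ.succ i'.succ.succ (by simpa using hii') (by omega)
    have h7 := h3 i' (by simp)
    omega
  wheel := by
    intro t y i j l hij hil hjl hy0 hy1 hi hj hl
    rw [← MvPolynomial.aeval_eq_eval]
    rw [aeval_fz]
    have := hf.wheel (Fin.cons (α := fun _ => ℚ) 0 (Fin.cons (α := fun _ => ℚ) 0 t)) y
      i.succ.succ j.succ.succ l.succ.succ (by simpa using hij) (by simpa using hil)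
      (by simpa using hjl) hy0 hy1 (by simpa using hi) (by simpa using hj) (by simpa using hl)
    rw [← MvPolynomial.aeval_eq_eval] at this
    exact this

theorem fac : Pool.Agent.H174.GM.S_FAC := by
  intro k f hf
  exact ⟨fz f, fz_isC hf, fun K _ _ t y hy => fac_id hf K t y hy⟩

end Pool.Agent.H388.GM174
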