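import Pool.Agent.H174.GM.Stmts2

/-!
# DG: change one sign in the Gog integrand
-/

set_option autoImplicit false

namespace Pool.Agent.H388.GM174

open Finset Pool.Agent.H174.GM

/-! ### naturality -/

section maps
variable {R S : Type*} [CommRing R] [CommRing S] (φ : R →+* S) {k : ℕ}

theorem uu_map (x : R) : φ (uu x) = uu (φ x) := by simp [uu]

theorem mm_map (u y : R) : φ (mm u y) = mm (φ u) (φ y) := by simp [mm]

theorem cc_map (Y : Fin k → R) : φ (cc Y) = cc (φ ∘ Y) := by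
  simp [cc, map_prod, mm_map, uu_map]

theorem ff_map (a : Fin k → ℕ) (Y : Fin k → R) : φ (ff a Y) = ff a (φ ∘ Y) := by
  simp [ff, map_prod, cc_map]

theorem flp_map (ε : Fin k → Bool) (X : Fin k → R) : φ ∘ flp ε X = flp ε (φ ∘ X) := by
  funext i
  simp only [flp, Function.comp]
  split_ifs <;> simp

theorem aa_map (a : Fin k → ℕ) (X : Fin k → R) : φ (aa a X) = aa a (φ ∘ X) := by
  unfold aa
  rw [map_sum]
  refine Finset.sum_congr rfl fun σ _ => ?_
  rw [map_zsmul, ff_map]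
  rfl

theorem br_map (a : Fin k → ℕ) (X : Fin k → R) : φ (br a X) = br a (φ ∘ X) := by
  unfold br
  rw [map_sum]
  refine Finset.sum_congr rfl fun ε _ => ?_
  rw [map_zsmul, aa_map, flp_map]

theorem psi_map (X : Fin k → R) : φ (psi X) = psi (φ ∘ X) := br_map φ _ X

/-- the single flip -/
def dl (j : Fin k) : Fin k → Bool := fun i => decide (i = j)

theorem flp_dl (ε : Fin k → Bool) (j : Fin k) (X : Fin k → R) :
    flp ε (flp (dl j) X) = flp (Function.update ε j (!ε j)) X := by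
  funext i
  by_cases hi : i = j
  · subst hi
    simp only [flp, dl, Function.update_self]
    cases ε i <;> simp
  · simp [flp, dl, hi]

theorem sg_dl (j : Fin k) : sg (dl j) = -1 := by
  unfold sg dl
  simp

end maps

/-! ### products over pairs -/

section pairs
variable {M : Type*} [CommMonoid M] {k : ℕ}

/-- product over the pairs inside `S` -/
def PS (S : Finset (Fin k)) (h : Fin k → Fin k → M) : M :=
  ∏ a ∈ S, ∏ b ∈ S, if a < b then h a b else 1

theorem PS_univ (h : Fin k → Fin k → M) : ∏ p ∈ pairs k, h p.1 p.2 = PS univ h := by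
  unfold pairs PS
  rw [Finset.prod_filter, ← Finset.univ_product_univ, Finset.prod_product]

theorem PS_insert (S : Finset (Fin k)) (j : Fin k) (hj : j ∉ S) (h : Fin k → Fin k → M) (s : M)
    (hs : ∀ p q, h p q = s * h q p) :
    PS (insert j S) h = (∏ r ∈ S, if r < j then s else 1) * (∏ r ∈ S, h j r) * PS S h := by
  unfold PS
  rw [Finset.prod_insert hj, Finset.prod_insert hj]
  have h1 : ∀ a ∈ S, (∏ b ∈ insert j S, if a < b then h a b else (1 : M)) =
      (if a < j then h a j else 1) * ∏ b ∈ S, if a < b then h a b else 1 := fun a _ =>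
    Finset.prod_insert hj
  rw [Finset.prod_congr rfl h1, Finset.prod_mul_distrib, if_neg (lt_irrefl j), one_mul,
    ← mul_assoc]
  have h2 : (∏ b ∈ S, if j < b then h j b else (1 : M)) * (∏ a ∈ S, if a < j then h a j else 1) =
      (∏ r ∈ S, if r < j then s else 1) * (∏ r ∈ S, h j r) := by
    rw [← Finset.prod_mul_distrib, ← Finset.prod_mul_distrib]
    refine Finset.prod_congr rfl fun r hr => ?_
    have hrj : r ≠ j := fun h0 => hj (h0 ▸ hr)
    rcases lt_or_gt_of_ne hrj with h2 | h2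
    · rw [if_neg (not_lt.2 h2.le), if_pos h2, if_pos h2, one_mul, hs r j]
    · rw [if_pos h2, if_neg (not_lt.2 h2.le), if_neg (not_lt.2 h2.le), one_mul, mul_one]
  rw [h2]

theorem d2_comm {R : Type*} [CommRing R] (u v : R) : d2 u v = d2 v u := by
  unfold d2
  ring

end pairs

/-! ### the algebraic identity at a root -/

theorem root_alg {K : Type*} [Field K] (v O s A V D2 W B Q U' D' Dv Da FF : K) (k n : ℕ)
    (hk : 1 ≤ k) (hkn : k ≤ n) (hv : v ≠ 0) (hv1 : 1 - v ≠ 0) (h2a : 1 - 2 * v⁻¹ ≠ 0)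
    (hR : 1 - 3 * uu v + 2 * uu v⁻¹ * uu v ^ 2 ≠ 0) (hDv : Dv ≠ 0) (hDa : Da ≠ 0)
    (hD : Dv * Da = A * V * W ^ 2) (hF : v ^ (2 * k - 1) * FF = W * Q) :
    ((uu v ^ (n + k + 1)) * Dv)⁻¹ * U' * D' *
      (((1 - 2 * v⁻¹) * (1 - 2 * v) * O * (s * (uu v⁻¹ - uu v) * A * V * D2)) * W * B * FF) /
      ((1 - 2 * v⁻¹) * (1 - 3 * uu v + 2 * uu v⁻¹ * uu v ^ 2) * uu v⁻¹ ^ (n + k + 1) * Da) =
    (s * (-1) ^ (n + k + 1) * O * D2 * B * U' * D') * (1 + v) * v ^ (n - k) * Q * (1 - v) /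
      (1 - v) ^ (2 * (n + k + 1)) := by
  have e1 : uu v * uu v⁻¹ = -((1 - v) ^ 2 * v⁻¹) := by
    unfold uu
    field_simp
    ring
  have e2 : (1 - 2 * v) * (uu v⁻¹ - uu v) = (1 - v) * (1 + v) * (v⁻¹) ^ 2 *
      (1 - 3 * uu v + 2 * uu v⁻¹ * uu v ^ 2) := by
    unfold uu
    field_simp
    ring
  have e3 : FF = (v ^ (2 * k - 1))⁻¹ * (W * Q) := by
    rw [← hF]
    field_simp
  have e4 : v ^ (n + k + 1) = v ^ (n - k) * v ^ 2 * v ^ (2 * k - 1) := by
    rw [← pow_add, ← pow_add]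
    congr 1
    omega
  have hu : uu v ≠ 0 := mul_ne_zero hv hv1
  have hua : uu v⁻¹ ≠ 0 := by
    intro h0
    rw [h0, mul_zero] at e1
    have : (1 - v) ^ 2 * v⁻¹ ≠ 0 := mul_ne_zero (pow_ne_zero 2 hv1) (inv_ne_zero hv)
    exact this (neg_eq_zero.1 e1.symm)
  rw [e3]
  set R := 1 - 3 * uu v + 2 * uu v⁻¹ * uu v ^ 2 with hRdef
  set a := 1 - 2 * v⁻¹ with hadef
  have step1 : ((uu v ^ (n + k + 1)) * Dv)⁻¹ * U' * D' *
      ((a * (1 - 2 * v) * O * (s * (uu v⁻¹ - uu v) * A * V * D2)) * W * B *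
        ((v ^ (2 * k - 1))⁻¹ * (W * Q))) / (a * R * uu v⁻¹ ^ (n + k + 1) * Da) =
      (s * O * D2 * B * U' * D') * ((1 - 2 * v) * (uu v⁻¹ - uu v)) * R⁻¹ * (A * V * W ^ 2) *
        (Dv * Da)⁻¹ * Q * (v ^ (2 * k - 1))⁻¹ * ((uu v * uu v⁻¹) ^ (n + k + 1))⁻¹ := by
    rw [mul_pow, mul_inv, mul_inv, mul_inv, div_eq_mul_inv, mul_inv, mul_inv, mul_inv]
    have : a * a⁻¹ = 1 := mul_inv_cancel₀ h2a
    linear_combination ((uu v ^ (n + k + 1))⁻¹ * Dv⁻¹ * U' * D' * ((1 - 2 * v) * O *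
      (s * (uu v⁻¹ - uu v) * A * V * D2)) * W * B * ((v ^ (2 * k - 1))⁻¹ * (W * Q)) * R⁻¹ *
      (uu v⁻¹ ^ (n + k + 1))⁻¹ * Da⁻¹) * this
  rw [step1, e2, ← hD, e1]
  have e5 : (-((1 - v) ^ 2 * v⁻¹)) ^ (n + k + 1) =
      (-1) ^ (n + k + 1) * (1 - v) ^ (2 * (n + k + 1)) * (v ^ (n + k + 1))⁻¹ := by
    rw [neg_pow, mul_pow, ← pow_mul, inv_pow]
    ring
  rw [e5, e4]
  have h1 : (-1 : K) ^ (n + k + 1) * (-1) ^ (n + k + 1) = 1 := by
    rw [← mul_pow]
    simp
  have h2 : ((-1 : K) ^ (n + k + 1))⁻¹ = (-1) ^ (n + k + 1) := by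
    rw [inv_eq_iff_eq_inv, eq_comm, inv_eq_of_mul_eq_one_left h1]
  have hvp : v ^ (2 * k - 1) ≠ 0 := pow_ne_zero _ hv
  have hvn : v ^ (n - k) ≠ 0 := pow_ne_zero _ hv
  have hv1p : (1 - v) ^ (2 * (n + k + 1)) ≠ 0 := pow_ne_zero _ hv1
  have hDD : Dv * Da ≠ 0 := mul_ne_zero hDv hDa
  have e6 : ((-1 : K) ^ (n + k + 1) * (1 - v) ^ (2 * (n + k + 1)) *
      (v ^ (n - k) * v ^ 2 * v ^ (2 * k - 1))⁻¹)⁻¹ =
      (-1) ^ (n + k + 1) * ((1 - v) ^ (2 * (n + k + 1)))⁻¹ *
        (v ^ (n - k) * v ^ 2 * v ^ (2 * k - 1)) := by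
    rw [mul_inv, mul_inv, h2, inv_inv]
  rw [e6]
  generalize (-1 : K) ^ (n + k + 1) = sgn
  generalize (1 - v) ^ (2 * (n + k + 1)) = z at *
  generalize v ^ (2 * k - 1) = vp at *
  generalize v ^ (n - k) = vn at *
  field_simp

/-! ### membership -/

theorem aeval_mem {K : Type} [Field K] [Algebra ℚ K] {k : ℕ} (L : Subfield K)
    (p : MvPolynomial (Fin k) ℚ) (j q : Fin k)
    (hj : p.degreeOf j = 0) (hq : p.degreeOf q = 0) (X : Fin k → K)
    (hX : ∀ r, r ≠ j → r ≠ q → X r ∈ L) : MvPolynomial.aeval X p ∈ L := by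
  rw [MvPolynomial.aeval_def, MvPolynomial.eval₂_eq']
  refine sum_mem fun m hm => mul_mem ?_ (prod_mem fun i _ => ?_)
  · rw [eq_ratCast]
    exact SubfieldClass.ratCast_mem L _
  · by_cases h1 : i = j
    · subst h1
      have := MvPolynomial.monomial_le_degreeOf i hm
      have h0 : m i = 0 := by omega
      rw [h0, pow_zero]
      exact one_mem _
    · by_cases h2 : i = q
      · subst h2
        have := MvPolynomial.monomial_le_degreeOf i hm
        have h0 : m i = 0 := by omega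
        rw [h0, pow_zero]
        exact one_mem _
      · exact pow_mem (hX i h1 h2) _

/-- the indices `≠ j` -/
def S1 {k : ℕ} (j : Fin k) : Finset (Fin k) := univ.filter fun q => q ≠ j

/-- the indices `≠ j, q` -/
def S2 {k : ℕ} (j q : Fin k) : Finset (Fin k) := univ.filter fun r => r ≠ j ∧ r ≠ q

theorem mem_S1 {k : ℕ} (j r : Fin k) : r ∈ S1 j ↔ r ≠ j := by simp [S1]

theorem mem_S2 {k : ℕ} (j q r : Fin k) : r ∈ S2 j q ↔ r ≠ j ∧ r ≠ q := by simp [S2]

theorem ins_S1 {k : ℕ} (j : Fin k) : insert j (S1 j) = univ := by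
  ext r
  simp only [mem_insert, mem_S1, mem_univ, iff_true]
  exact em _

theorem ins_S2 {k : ℕ} (j q : Fin k) (h : q ≠ j) : insert q (S2 j q) = S1 j := by
  ext r
  simp only [mem_insert, mem_S1, mem_S2]
  constructor
  · rintro (h1 | h1)
    · rw [h1]
      exact h
    · exact h1.1
  · intro h1
    by_cases h2 : r = q
    · exact Or.inl h2
    · exact Or.inr ⟨h1, h2⟩

theorem j_S1 {k : ℕ} (j : Fin k) : j ∉ S1 j := by simp [S1]

theorem q_S2 {k : ℕ} (j q : Fin k) : q ∉ S2 j q := by simp [S2]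

section split
variable {R : Type*} [CommRing R] {k : ℕ}

/-- the sign -/
def ss (R : Type*) [CommRing R] {k : ℕ} (j q : Fin k) : R :=
  (∏ r ∈ S1 j, if r < j then -1 else 1) * (∏ r ∈ S2 j q, if r < q then -1 else 1)

theorem db_split (X : Fin k → R) (j q : Fin k) (h : q ≠ j) :
    db X = (1 - 2 * X j) * (1 - 2 * X q) * (∏ r ∈ S2 j q, (1 - 2 * X r)) *
      (ss R j q * (uu (X j) - uu (X q)) * (∏ r ∈ S2 j q, (uu (X j) - uu (X r))) *
        (∏ r ∈ S2 j q, (uu (X q) - uu (X r))) *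
        PS (S2 j q) (fun p q => uu (X p) - uu (X q))) := by
  have h1 : ∏ p ∈ pairs k, (X p.1 - X p.2) * (1 - X p.1 - X p.2) =
      PS univ (fun p q => uu (X p) - uu (X q)) := by
    rw [← PS_univ]
    refine Finset.prod_congr rfl fun p _ => ?_
    unfold uu
    ring
  have hs : ∀ p q, (fun p q => uu (X p) - uu (X q)) p q =
      (-1) * (fun p q => uu (X p) - uu (X q)) q p := by
    intro p q
    simp only
    ring
  unfold db
  rw [h1, ← ins_S1 j, PS_insert _ _ (j_S1 j) _ (-1) hs, Finset.prod_insert (j_S1 j),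
    ← ins_S2 j q h, PS_insert _ _ (q_S2 j q) _ (-1) hs]
  unfold ss
  rw [← ins_S2 j q h]
  simp only [Finset.prod_insert (q_S2 j q)]
  ring

theorem kap_split (X : Fin k → R) (j q : Fin k) (h : q ≠ j) (N : ℕ) :
    (∏ i ∈ S1 j, uu (X i) ^ N) * PS (S1 j) (fun p q => d2 (uu (X p)) (uu (X q))) =
      (uu (X q) ^ N * ∏ r ∈ S2 j q, d2 (uu (X q)) (uu (X r))) *
      ((∏ r ∈ S2 j q, uu (X r) ^ N) * PS (S2 j q) (fun p q => d2 (uu (X p)) (uu (X q)))) := by
  have hs : ∀ p q, (fun p q => d2 (uu (X p)) (uu (X q))) p q =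
      1 * (fun p q => d2 (uu (X p)) (uu (X q))) q p := by
    intro p q
    simp only [one_mul]
    exact d2_comm _ _
  rw [← ins_S2 j q h, PS_insert _ _ (q_S2 j q) _ 1 hs, Finset.prod_insert (q_S2 j q)]
  simp only [ite_self, Finset.prod_const_one, one_mul]
  ring

end split

theorem PS_mem {K : Type*} [Field K] {k : ℕ} (L : Subfield K) (S : Finset (Fin k))
    (h : Fin k → Fin k → K) (hh : ∀ a ∈ S, ∀ b ∈ S, h a b ∈ L) : PS S h ∈ L := by
  unfold PS
  refine prod_mem fun a ha => prod_mem fun b hb => ?_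
  split_ifs
  · exact hh a ha b hb
  · exact one_mem _

theorem uu_mem {K : Type*} [Field K] (L : Subfield K) {x : K} (h : x ∈ L) : uu x ∈ L :=
  mul_mem h (sub_mem (one_mem _) h)

theorem d2_mem {K : Type*} [Field K] (L : Subfield K) {x y : K} (h : x ∈ L) (h' : y ∈ L) :
    d2 x y ∈ L := by
  unfold d2
  have h3 : (3 : K) ∈ L := ofNat_mem L 3
  exact add_mem (sub_mem (add_mem h h') (mul_mem (mul_mem h3 h) h'))
    (mul_mem (pow_mem h 2) (pow_mem h' 2))

/-- the shape of the terms at the roots -/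
def Form {K : Type} [Field K] (L : Subfield K) (n k : ℕ) (v t : K) : Prop :=
  ∃ c ∈ L, ∃ Q : Polynomial K, Q.natDegree ≤ 4 * k - 2 ∧ (∀ i, Q.coeff i ∈ L) ∧
    t = c * (1 + v) * v ^ (n - k) * Q.eval v * (1 - v) / (1 - v) ^ (2 * (n + k + 1))

theorem Form_zero {K : Type} [Field K] (L : Subfield K) (n k : ℕ) (v : K) : Form L n k v 0 :=
  ⟨0, zero_mem _, 0, by simp, by simp, by simp⟩

theorem term_form (hLOC : S_LOC) (hTF : S_TF) {K : Type} [Field K] [Algebra ℚ K] {k n : ℕ}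
    (hkn : k ≤ n) (σ : Equiv.Perm (Fin k)) (ε₁ : Fin k → Bool) (j q : Fin k) (hqj : q ≠ j)
    (L : Subfield K) (X : Fin k → K) (hX : ∀ r, r ≠ j → r ≠ q → X r ∈ L) (v : K) (hv : v ≠ 0)
    (hv1 : 1 - v ≠ 0) (hXj : X j = v⁻¹) (hXq : X q = v) :
    Form L n k v (((∏ i ∈ S1 j, uu (X i) ^ (n + k + 1)) *
        PS (S1 j) (fun p q => d2 (uu (X p)) (uu (X q))))⁻¹ *
        (psi X * ff (st k) (flp ε₁ X ∘ σ)) /
      ((1 - 2 * v⁻¹) * (1 - 3 * uu (X q) + 2 * uu v⁻¹ * uu (X q) ^ 2) * uu v⁻¹ ^ (n + k + 1) *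
        ∏ r ∈ S2 j q, d2 (uu v⁻¹) (uu (X r)))) := by
  have hk : 1 ≤ k := Fin.pos j
  obtain ⟨B, hBj, hBq, hB⟩ := hLOC k j q hqj.symm
  obtain ⟨Q, hQd, hQc, hQ⟩ := hTF k σ ε₁ j q hqj.symm
  have hjq1 : X j * X q = 1 := by
    rw [hXj, hXq, inv_mul_cancel₀ hv]
  have hB := hB K X hjq1
  have hQ := hQ K X hjq1
  rw [kap_split X j q hqj]
  rw [hXq]
  by_cases h2a : 1 - 2 * v⁻¹ = 0
  · rw [h2a]
    simp only [zero_mul, div_zero]
    exact Form_zero L n k v
  by_cases hR : 1 - 3 * uu v + 2 * uu v⁻¹ * uu v ^ 2 = 0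
  · rw [hR]
    simp only [zero_mul, mul_zero, div_zero]
    exact Form_zero L n k v
  by_cases hDv : ∏ r ∈ S2 j q, d2 (uu v) (uu (X r)) = 0
  · rw [hDv]
    simp only [zero_mul, mul_zero, inv_zero, zero_div]
    exact Form_zero L n k v
  by_cases hDa : ∏ r ∈ S2 j q, d2 (uu v⁻¹) (uu (X r)) = 0
  · rw [hDa]
    simp only [mul_zero, div_zero]
    exact Form_zero L n k v
  have hW : (∏ r ∈ S2 j q, d2 (uu v) (uu (X r))) * (∏ r ∈ S2 j q, d2 (uu v⁻¹) (uu (X r))) =
      (∏ r ∈ S2 j q, (uu v⁻¹ - uu (X r))) * (∏ r ∈ S2 j q, (uu v - uu (X r))) *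
        (∏ r ∈ S2 j q, (1 - uu v⁻¹ * uu v * uu (X r))) ^ 2 := by
    rw [← Finset.prod_mul_distrib, ← Finset.prod_mul_distrib, ← Finset.prod_pow,
      ← Finset.prod_mul_distrib]
    refine Finset.prod_congr rfl fun r _ => ?_
    generalize uu (X r) = u
    unfold d2 uu
    field_simp
    ring
  have hdb := db_split X j q hqj
  rw [hXj, hXq] at hdb
  rw [hXj, hXq] at hB hQ
  have hFF : v ^ (2 * k - 1) * ff (st k) (flp ε₁ X ∘ σ) =
      (∏ r ∈ S2 j q, (1 - uu v⁻¹ * uu v * uu (X r))) *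
        (Q.map (MvPolynomial.aeval X).toRingHom).eval v := hQ
  have key := root_alg v (∏ r ∈ S2 j q, (1 - 2 * X r)) (ss K j q)
    (∏ r ∈ S2 j q, (uu v⁻¹ - uu (X r))) (∏ r ∈ S2 j q, (uu v - uu (X r)))
    (PS (S2 j q) (fun p q => uu (X p) - uu (X q)))
    (∏ r ∈ S2 j q, (1 - uu v⁻¹ * uu v * uu (X r)))
    (MvPolynomial.aeval (fun i => uu (X i)) B)
    ((Q.map (MvPolynomial.aeval X).toRingHom).eval v)
    (∏ r ∈ S2 j q, uu (X r) ^ (n + k + 1))⁻¹
    (PS (S2 j q) (fun p q => d2 (uu (X p)) (uu (X q))))⁻¹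
    (∏ r ∈ S2 j q, d2 (uu v) (uu (X r))) (∏ r ∈ S2 j q, d2 (uu v⁻¹) (uu (X r)))
    (ff (st k) (flp ε₁ X ∘ σ)) k n hk hkn hv hv1 h2a hR hDv hDa hW hFF
  refine ⟨ss K j q * (-1) ^ (n + k + 1) * (∏ r ∈ S2 j q, (1 - 2 * X r)) *
    PS (S2 j q) (fun p q => uu (X p) - uu (X q)) * (MvPolynomial.aeval (fun i => uu (X i)) B) *
    (∏ r ∈ S2 j q, uu (X r) ^ (n + k + 1))⁻¹ *
    (PS (S2 j q) (fun p q => d2 (uu (X p)) (uu (X q))))⁻¹, ?_,
    Q.map (MvPolynomial.aeval X).toRingHom, ?_, ?_, ?_⟩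
  · have hm1 : (-1 : K) ∈ L := neg_mem (one_mem _)
    have h2m : (2 : K) ∈ L := ofNat_mem L 2
    have hXL : ∀ r ∈ S2 j q, X r ∈ L := fun r hr =>
      hX r ((mem_S2 j q r).1 hr).1 ((mem_S2 j q r).1 hr).2
    refine mul_mem (mul_mem (mul_mem (mul_mem (mul_mem (mul_mem ?_ (pow_mem hm1 _)) ?_) ?_) ?_)
      (inv_mem ?_)) (inv_mem ?_)
    · unfold ss
      refine mul_mem (prod_mem fun r _ => ?_) (prod_mem fun r _ => ?_) <;>
      · split_ifs
        · exact hm1
        · exact one_mem _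
    · exact prod_mem fun r hr => sub_mem (one_mem _) (mul_mem h2m (hXL r hr))
    · exact PS_mem L _ _ fun a ha b hb =>
        sub_mem (uu_mem L (hXL a ha)) (uu_mem L (hXL b hb))
    · exact aeval_mem L B j q hBj hBq _ fun r h1 h2 => uu_mem L (hX r h1 h2)
    · exact prod_mem fun r hr => pow_mem (uu_mem L (hXL r hr)) _
    · exact PS_mem L _ _ fun a ha b hb => d2_mem L (uu_mem L (hXL a ha)) (uu_mem L (hXL b hb))
  · exact (Polynomial.natDegree_map_le).trans hQd
  · intro i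
    rw [Polynomial.coeff_map]
    exact aeval_mem L _ j q (hQc i).1 (hQc i).2 _ hX
  · rw [← key, hB, hdb]
    congr 1
    rw [mul_inv ((uu v) ^ (n + k + 1) * _), mul_inv (∏ r ∈ S2 j q, uu (X r) ^ (n + k + 1))]
    unfold S2
    ring

/-! ### subrings, degrees -/

section subr
variable {R : Type*} [CommRing R] {k : ℕ}

theorem flp_mem (S : Subring R) {X : Fin k → R} (hX : ∀ i, X i ∈ S) (ε : Fin k → Bool) (i : Fin k) :
    flp ε X i ∈ S := by
  unfold flp
  split_ifs
  · exact sub_mem (one_mem _) (hX i)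
  · exact hX i

theorem ff_mem (S : Subring R) {X : Fin k → R} (hX : ∀ i, X i ∈ S) (a : Fin k → ℕ) :
    ff a X ∈ S := by
  unfold ff cc mm uu
  refine mul_mem (prod_mem fun i _ => pow_mem (hX i) _) (prod_mem fun p _ => ?_)
  exact add_mem (hX _) (mul_mem (mul_mem (hX _) (sub_mem (one_mem _) (hX _)))
    (pow_mem (sub_mem (one_mem _) (hX _)) _))

theorem psi_mem (S : Subring R) {X : Fin k → R} (hX : ∀ i, X i ∈ S) : psi X ∈ S := by
  unfold psi br aa
  refine sum_mem fun ε _ => zsmul_mem (sum_mem fun σ _ => zsmul_mem ?_ _) _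
  exact ff_mem S (fun i => flp_mem S hX ε (σ i)) _

/-- polynomials with coefficients in a subring -/
def PL (L : Subring R) : Subring (Polynomial R) where
  carrier := {p | ∀ n, p.coeff n ∈ L}
  mul_mem' := by
    intro a b ha hb n
    rw [Polynomial.coeff_mul]
    exact sum_mem fun x _ => mul_mem (ha _) (hb _)
  one_mem' := by
    intro n
    rw [Polynomial.coeff_one]
    split_ifs
    · exact one_mem _
    · exact zero_mem _
  add_mem' := by
    intro a b ha hb n
    rw [Polynomial.coeff_add]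
    exact add_mem (ha n) (hb n)
  zero_mem' := by
    intro n
    rw [Polynomial.coeff_zero]
    exact zero_mem _
  neg_mem' := by
    intro a ha n
    rw [Polynomial.coeff_neg]
    exact neg_mem (ha n)

/-- the point with a polynomial variable in position `j` -/
noncomputable def Xp (x : Fin k → R) (j : Fin k) : Fin k → Polynomial R :=
  fun i => if i = j then Polynomial.X else Polynomial.C (x i)

theorem Xp_mem (L : Subring R) (x : Fin k → R) (j : Fin k) (hx : ∀ i, i ≠ j → x i ∈ L)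
    (i : Fin k) : Xp x j i ∈ PL L := by
  intro n
  unfold Xp
  by_cases h : i = j
  · rw [if_pos h, Polynomial.coeff_X]
    split_ifs
    · exact one_mem _
    · exact zero_mem _
  · rw [if_neg h, Polynomial.coeff_C]
    split_ifs
    · exact hx i h
    · exact zero_mem _

theorem eval_Xp (x : Fin k → R) (j : Fin k) (a : R) :
    (Polynomial.evalRingHom a) ∘ Xp x j = Function.update x j a := by
  funext i
  unfold Xp
  by_cases h : i = j
  · subst h
    simp
  · simp [h]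

theorem comp_Xp (x : Fin k → R) (j : Fin k) :
    (Polynomial.compRingHom (1 - Polynomial.X : Polynomial R)) ∘ Xp x j = flp (dl j) (Xp x j) := by
  funext i
  unfold Xp flp dl
  by_cases h : i = j
  · subst h
    simp
  · simp [h]

theorem natDegree_uu_le (p : Polynomial R) (d : ℕ) (hp : p.natDegree ≤ d) :
    (uu p).natDegree ≤ 2 * d := by
  unfold uu
  have h1 : (1 - p).natDegree ≤ d :=
    (Polynomial.natDegree_sub_le _ _).trans (max_le (by simp) hp)
  have := Polynomial.natDegree_mul_le_of_le hp h1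
  omega

theorem natDegree_mm_le (p q : Polynomial R) (d e : ℕ) (hp : p.natDegree ≤ d)
    (hq : q.natDegree ≤ e) : (mm (uu p) q).natDegree ≤ 2 * d + 2 * e := by
  unfold mm
  have h1 := natDegree_uu_le p d hp
  have h2 : (1 - q).natDegree ≤ e :=
    (Polynomial.natDegree_sub_le _ _).trans (max_le (by simp) hq)
  have h3 : ((1 - q) ^ 2).natDegree ≤ 2 * e := Polynomial.natDegree_pow_le_of_le 2 h2
  have h4 := Polynomial.natDegree_mul_le_of_le h1 h3
  refine (Polynomial.natDegree_add_le _ _).trans (max_le ?_ h4)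
  omega

theorem sum_pairs (s : Fin k) : ∑ p ∈ pairs k, ((if p.1 = s then 2 else 0) +
    (if p.2 = s then 2 else 0)) ≤ 2 * (k - 1) := by
  have h1 : ∑ p ∈ pairs k, (if p.1 = s then 2 else 0) =
      ∑ b : Fin k, if s < b then 2 else 0 := by
    unfold pairs
    rw [Finset.sum_filter, ← Finset.univ_product_univ, Finset.sum_product,
      Finset.sum_eq_single s]
    · simp
    · intro b _ hb
      simp [hb]
    · simp
  have h2 : ∑ p ∈ pairs k, (if p.2 = s then 2 else 0) =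
      ∑ a : Fin k, if a < s then 2 else 0 := by
    unfold pairs
    rw [Finset.sum_filter, ← Finset.univ_product_univ, Finset.sum_product_right,
      Finset.sum_eq_single s]
    · simp
    · intro b _ hb
      simp [hb]
    · simp
  rw [Finset.sum_add_distrib, h1, h2, ← Finset.sum_add_distrib]
  have h3 : ∑ b : Fin k, ((if s < b then 2 else 0) + if b < s then 2 else 0) =
      ∑ b : Fin k, if b = s then 0 else 2 := by
    refine Finset.sum_congr rfl fun b _ => ?_
    rcases lt_trichotomy b s with h | h | h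
    · simp [h, h.ne, not_lt.2 h.le]
    · simp [h]
    · simp [h, h.ne', not_lt.2 h.le]
  rw [h3]
  have h4 : ∑ b : Fin k, (if b = s then 0 else 2) + 2 = 2 * k := by
    have : ∑ b : Fin k, (if b = s then 0 else 2) + ∑ b : Fin k, (if b = s then 2 else 0) =
        ∑ b : Fin k, 2 := by
      rw [← Finset.sum_add_distrib]
      refine Finset.sum_congr rfl fun b _ => ?_
      split_ifs <;> rfl
    simp only [Finset.sum_ite_eq', Finset.mem_univ, if_true, Finset.sum_const,
      Finset.card_univ, Fintype.card_fin, smul_eq_mul] at this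
    omega
  omega

theorem natDegree_ff_le (Y : Fin k → Polynomial R) (s : Fin k)
    (hY : ∀ i, (Y i).natDegree ≤ if i = s then 1 else 0) :
    (ff (st k) Y).natDegree ≤ 3 * k - 2 := by
  unfold ff cc
  have h1 : (∏ i, Y i ^ st k i).natDegree ≤ k := by
    refine (Polynomial.natDegree_prod_le _ _).trans ?_
    have h2 : ∀ i ∈ (univ : Finset (Fin k)), (Y i ^ st k i).natDegree ≤
        if i = s then k else 0 := by
      intro i _
      refine (Polynomial.natDegree_pow_le_of_le _ (hY i)).trans ?_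
      unfold st
      split_ifs
      · have := i.2
        omega
      · simp
    refine (Finset.sum_le_sum h2).trans ?_
    simp
  have h2 : (∏ p ∈ pairs k, mm (uu (Y p.1)) (Y p.2)).natDegree ≤ 2 * (k - 1) := by
    refine (Polynomial.natDegree_prod_le _ _).trans ((Finset.sum_le_sum fun p _ => ?_).trans
      (sum_pairs s))
    refine (natDegree_mm_le _ _ _ _ (hY p.1) (hY p.2)).trans ?_
    split_ifs <;> simp
  have := Polynomial.natDegree_mul_le_of_le h1 h2
  have := Fin.pos s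
  omega

theorem natDegree_Xp_le (x : Fin k → R) (j : Fin k) (ε : Fin k → Bool) (i : Fin k) :
    (flp ε (Xp x j) i).natDegree ≤ if i = j then 1 else 0 := by
  have h : (Xp x j i).natDegree ≤ if i = j then 1 else 0 := by
    unfold Xp
    split_ifs
    · exact Polynomial.natDegree_X_le
    · simp
  unfold flp
  by_cases h1 : ε i = true
  · rw [if_pos h1]
    exact (Polynomial.natDegree_sub_le _ _).trans (max_le (by simp) h)
  · rw [if_neg h1]
    exact h

theorem natDegree_ffXp_le (x : Fin k → R) (j : Fin k) (ε : Fin k → Bool)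
    (σ : Equiv.Perm (Fin k)) : (ff (st k) (flp ε (Xp x j) ∘ σ)).natDegree ≤ 3 * k - 2 := by
  refine natDegree_ff_le _ (σ.symm j) fun i => ?_
  refine (natDegree_Xp_le x j ε (σ i)).trans (le_of_eq ?_)
  simp only [Equiv.eq_symm_apply]

theorem natDegree_psi_le (x : Fin k → R) (j : Fin k) : (psi (Xp x j)).natDegree ≤ 3 * k - 2 := by
  unfold psi br aa
  refine Polynomial.natDegree_sum_le_of_forall_le _ _ fun ε _ => ?_
  refine (Polynomial.natDegree_smul_le _ _).trans ?_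
  refine Polynomial.natDegree_sum_le_of_forall_le _ _ fun σ _ => ?_
  exact (Polynomial.natDegree_smul_le _ _).trans (natDegree_ffXp_le x j ε σ)

end subr

end Pool.Agent.H388.GM174
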